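import Mathlib
import Pool.Agent.Zk23.KKStrict
import Pool.Agent.Zk23.KKEx

set_option autoImplicit false

/-!
# MP_4b405e_nt: the arithmetic Kakeya problem for images of maps of class `C^s`

Let `B ⊆ ℝ^n` be covered by the images of countably many maps `ℝ^d → ℝ^n` of class `C^s`, `s ≥ 1`. If
`n ≤ s + 1` and `d = n - 1`, the common differences of the `(n+1)`-term progressions in `B` form a null
set. More precisely the least `d` for which such a `B` can contain `k`-term progressions with a set of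
positive measure of common differences is `n - ⌊n/k⌋` for `k ≤ s + 1`, as for `C^∞` maps
(`SmoothCovers`), and greater than `s n / (s + 1)` for `k ≥ s + 2`. For `k = 3` the class `C^2` is optimal:
`C^1` images of `[0,1]^7` in `ℝ^11` suffice.

There is a version with layers `a + t r`, `t ∈ T`, of different dimensions `d_t` and one arbitrary layer.

Proof. The sharp Sard theorem for maps of class `C^s`, with a parameter in a fractal set: if
`f : U × Y → F` is of class `C^s`, the values of `f` at the points `(u, y)` with `u ∈ Z` and `D_y f = 0`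
have dimension at most `dim Z + dim Y / s`. This is proved by induction on `dim Y` for families of smooth
functions `Φ(κ(x), ·)` with `|Φ(κ(x), z) - Φ(κ(x'), z)| ≤ C (|u - u'|^(1/s) + |z - y| + |z - y'|)^s`, which
are the Taylor polynomials of `f` at the beginning; interpolation of derivatives shows that this property
is inherited by the restrictions to the manifolds on which a derivative vanishes. In the borderline case
the values have measure zero (`KKNull`). Hence, for smooth maps `π`, `ρ` of class `C^s`, the values `ρ(x)`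
at the points `x ∈ π⁻¹(Z)` with `dim Dρ(ker Dπ) = w` and `dim (ker Dπ ∩ ker Dρ) = μ` have dimension at most
`dim Z + w + μ/s`. At the points of the family `{(a, r, x) : f_t(x_t) = a + t r}` the linear algebra of
`SmoothCovers` gives `dim W + ∑ (dim L - v_t)⁺ ≤ dim L`, where `v_t = rank Df_t`.
-/

open Set Filter Topology MeasureTheory
open scoped ContDiff ENNReal

namespace Pool.Agent.Results.MP_4b405e_nt.FiniteSmoothness

/-- `ℝ^n` with its Euclidean norm. -/
abbrev E (n : ℕ) := EuclideanSpace ℝ (Fin n)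

/-- The common differences of the `k`-term progressions in `B`. -/
def progDiff {n : ℕ} (k : ℕ) (B : Set (E n)) : Set (E n) :=
  {r | ∃ a : E n, ∀ j : ℕ, j < k → a + (j : ℝ) • r ∈ B}

/-- The cube `[0,1]^n`. -/
def cube (n : ℕ) : Set (E n) := {r | ∀ i, r i ∈ Icc (0 : ℝ) 1}

/-- `B` is covered by the images of countably many maps `ℝ^d → ℝ^n` of class `C^s`. -/
def Covered {n : ℕ} (s d : ℕ) (B : Set (E n)) : Prop :=
  ∃ f : ℕ → E d → E n, (∀ i, ContDiff ℝ s (f i)) ∧ B ⊆ ⋃ i, range (f i)

theorem result :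
    -- (1) dimension `n - 1`, `n ≤ s + 1`
    (∀ n s : ℕ, 1 ≤ n → 1 ≤ s → n ≤ s + 1 → ∀ B : Set (E n), Covered s (n - 1) B →
      volume (progDiff (n + 1) B) = 0) ∧
    -- (2) the least dimension for progressions of length `k ≤ s + 1`
    (∀ n k s d : ℕ, 1 ≤ s → 1 ≤ k → k ≤ s + 1 →
      ((∃ B : Set (E n), Covered s d B ∧ volume (progDiff k B) ≠ 0) ↔ n - n / k ≤ d) ∧
      ((∃ B : Set (E n), Covered s d B ∧ progDiff k B = univ) ↔ n - n / k ≤ d)) ∧
    -- (3) a bound for longer progressions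
    (∀ n k s d : ℕ, 1 ≤ n → 1 ≤ s → s + 2 ≤ k → ∀ B : Set (E n), Covered s d B →
      volume (progDiff k B) ≠ 0 → s * n < (s + 1) * d) ∧
    -- (4) for `k = 3` the class `C^2` is optimal
    (∃ g : E 7 → E 11, ContDiff ℝ 1 g ∧ cube 11 ⊆ progDiff 3 (g '' cube 7)) ∧
    -- (5) layers of class `C^s` and one arbitrary layer
    (∀ (n s : ℕ) (T : Finset ℝ), 1 ≤ s → 1 ≤ T.card → T.card ≤ s + 1 →
      ∀ (d : ℝ → ℕ) (B : ℝ → Set (E n)), (∀ t ∈ T, Covered s (d t) (B t)) →
      ∀ t₀ : ℝ, t₀ ∉ T → ∀ Z : Set (E n),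
      ((T.card * (s - 1) + 1 : ℕ) : ℝ≥0∞) *
          dimH {r : E n | ∃ a : E n, a + t₀ • r ∈ Z ∧ ∀ t ∈ T, a + t • r ∈ B t} ≤
        ((s + 1 - T.card : ℕ) : ℝ≥0∞) * dimH Z + s * ((∑ t ∈ T, d t : ℕ) : ℝ≥0∞)) := by
  refine ⟨?_, ?_, ?_, ?_, ?_⟩
  · intro n s hn hs hns B hB
    by_contra hcon
    rcases Nat.lt_or_ge s n with h | h
    · obtain rfl : n = s + 1 := by omega
      have := Pool.Agent.Zk23.KKStrict.strict hn hs (by omega : s + 2 ≤ s + 1 + 1) hB hcon
      rw [Nat.add_sub_cancel, mul_comm] at this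
      exact lt_irrefl _ this
    · have h1 := Pool.Agent.Zk23.KKFinR.lower hs (by omega : 1 ≤ n + 1) hB hcon
      rw [min_eq_left (by omega), Nat.div_eq_of_lt (Nat.lt_succ_self n)] at h1
      omega
  · intro n k s d hs hk hks
    refine ⟨Pool.Agent.Zk23.KKFinR.exact n k s d hs hk hks, ?_, fun h =>
      Pool.Agent.Zk23.KKFinR.example_cover n k s d hk h⟩
    rintro ⟨B, hB, hu⟩
    refine (Pool.Agent.Zk23.KKFinR.exact n k s d hs hk hks).1 ⟨B, hB, ?_⟩
    have hu' : {r : E n | ∃ a : E n, ∀ j : ℕ, j < k → a + (j : ℝ) • r ∈ B} = univ := hu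
    rw [hu']
    exact (Measure.measure_univ_pos.2 (NeZero.ne _)).ne'
  · intro n k s d hn hs hk B hB hv
    exact Pool.Agent.Zk23.KKStrict.strict hn hs hk hB hv
  · obtain ⟨g, hg, hP⟩ := Pool.Agent.Zk23.KKEx.c1_example
    exact ⟨g, hg, fun r hr => hP r hr⟩
  · intro n s T hs hT1 hT2 d B hB t₀ ht₀ Z
    obtain ⟨b, hb⟩ : ∃ b, T.card = b + 1 := ⟨T.card - 1, by omega⟩
    obtain ⟨a, ha⟩ : ∃ a, a + b = s := ⟨s - b, by omega⟩
    have h := Pool.Agent.Zk23.KKMainR.layers n T hs hb ha d B hB t₀ ht₀ Z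
    have e1 : T.card * (s - 1) + 1 = a + b * s := by
      rw [hb]
      obtain ⟨s', rfl⟩ : ∃ s', s = s' + 1 := ⟨s - 1, by omega⟩
      rw [Nat.add_sub_cancel]
      have : (b + 1) * s' + 1 = b * (s' + 1) + (s' + 1 - b) + 0 := by
        have : b ≤ s' + 1 := by omega
        zify [this]
        ring
      rw [this]
      omega
    have e2 : s + 1 - T.card = a := by omega
    rw [e1, e2]
    exact h

end Pool.Agent.Results.MP_4b405e_nt.FiniteSmoothness
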