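import Pool.Agent.Zk79.TaylorRigid

/-!
# MP_4b405e_nt: the arithmetic Kakeya problem in `ℝ^d` for families without rigid parts

`B ⊆ ℝ^d` contains the `k`-term progressions `a(r), a(r) + r, …, a(r) + (k-1) r` for all `r ∈ [0,1]^d`.
The rounded graph of the choice function `a` at scale `1/N` is the set of the `N^d` points
`(⌊N a(v/N)⌋, v)` of `ℤ^d × ℤ^d`, `v ∈ {0, …, N-1}^d`. Its layers, the images under `(x, v) ↦ x + t v`
for `t < k`, are seen by `B`.

An operation `f : A^n → A` on a finite set `A ⊂ ℤ^d × ℤ^d` is *compatible* if for each `t < k` the layer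
`t` of `f(u_1, …, u_n)` depends only on the layers `t` of `u_1, …, u_n`. `A` is *rigid* if every
compatible operation with `f(x, …, x) = x` is a projection, *irreducible* if it cannot be divided in
two nonempty parts whose layers are disjoint for all but one `t`, and *flexible* if for any two
elements `x ≠ y` there is a compatible operation `f` (depending on `x`, `y`) with `f(x, …, x) = x` and
`f(y, …, y) = y` which does not coincide with a projection on the tuples of elements `x`, `y`.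

1. `|A|^{k-1} ≤ ∏_{t < k} |{x + t v : (x, v) ∈ A}|` for all `A` without irreducible and rigid subsets
   with at least two elements.
2. If the rounded graph of `a` at scale `1/N` contains such a set with `M` elements, then every cover of
   `B` by balls of radius `1/N` has at least `3^{-d} M^{1 - 1/k}` members.
3. If at infinitely many scales `1/N` the rounded graph contains such a set with at least `N^{d - ε/2}`
   elements, and `k > 2 d / ε`, then the upper Minkowski dimension of `B` is at least `d - ε`.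
4. Flexible sets have no irreducible and rigid subsets with at least two elements. Sets which are
   closed under some componentwise idempotent operations on their layers, with a Taylor system of
   identities, are flexible. These operations are arbitrary functions otherwise, unrelated to each
   other and to addition (semilattice, majority, near-unanimity, commutative idempotent, cyclic or
   Mal'cev operations, for example).

The proof is that of `MP_169869_co.RigidParts`, in a form for subsets of ordered abelian groups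
(`Pool.Agent.Zk79.TaylorRigid`), together with the exact rounding of progressions.
-/

set_option autoImplicit false

namespace Pool.Agent.Results.MP_4b405e_nt.NoRigidParts

open Finset Pool.Agent.Zk79.Taylor

/-- the grid `{0, …, N-1}^d` -/
noncomputable def grid (d N : ℕ) : Finset (Fin d → ℤ) :=
  Fintype.piFinset (fun _ => Finset.Ico (0 : ℤ) N)

/-- the point `v / N` -/
noncomputable def pt {d : ℕ} (N : ℕ) (v : Fin d → ℤ) : EuclideanSpace ℝ (Fin d) :=
  WithLp.toLp 2 (fun i => (v i : ℝ) / N)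

/-- the rounded graph `{(⌊N a(v/N)⌋, v) : v ∈ grid}` of `a` at scale `1/N` -/
noncomputable def graph {d : ℕ} (a : EuclideanSpace ℝ (Fin d) → EuclideanSpace ℝ (Fin d)) (N : ℕ) :
    Finset ((Fin d → ℤ) × (Fin d → ℤ)) :=
  (grid d N).image (fun v => ((fun i => ⌊(N : ℝ) * a (pt N v) i⌋), v))

/-- `B` contains the progression `a r, a r + r, …, a r + (k-1) r` for every `r ∈ [0,1]^d` -/
def Contains {d : ℕ} (k : ℕ) (B : Set (EuclideanSpace ℝ (Fin d)))
    (a : EuclideanSpace ℝ (Fin d) → EuclideanSpace ℝ (Fin d)) : Prop :=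
  ∀ r : EuclideanSpace ℝ (Fin d), (∀ i, r i ∈ Set.Icc (0 : ℝ) 1) →
    ∀ j : ℕ, j < k → a r + (j : ℝ) • r ∈ B

/-- at arbitrarily small scales `δ`, at least `δ ^ (-s)` balls of radius `δ` are needed to cover `B`
(so that the upper Minkowski dimension of `B` is at least `s`) -/
def DimAtLeast {d : ℕ} (B : Set (EuclideanSpace ℝ (Fin d))) (s : ℝ) : Prop :=
  ∀ δ₀ : ℝ, 0 < δ₀ → ∃ δ : ℝ, 0 < δ ∧ δ < δ₀ ∧
    ∀ S : Finset (EuclideanSpace ℝ (Fin d)), B ⊆ (⋃ x ∈ S, Metric.ball x δ) →
      δ ^ (-s) ≤ (S.card : ℝ)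

variable {d : ℕ}

/-- the layer `t` of the point `(x, v)`: the point `x + t v` -/
def layer (t : ℕ) (z : (Fin d → ℤ) × (Fin d → ℤ)) : Fin d → ℤ := z.1 + (t : ℤ) • z.2

/-- `f` is a compatible `n`-ary operation on `A`: it maps `A^n` to `A`, and for each `t < k` the layer
`t` of `f(u_1, …, u_n)` depends only on the layers `t` of `u_1, …, u_n`. -/
def Compatible (k : ℕ) (A : Finset ((Fin d → ℤ) × (Fin d → ℤ))) (n : ℕ)
    (f : (Fin n → (Fin d → ℤ) × (Fin d → ℤ)) → (Fin d → ℤ) × (Fin d → ℤ)) : Prop :=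
  (∀ u, (∀ i, u i ∈ A) → f u ∈ A) ∧
  ∀ t < k, ∀ u v, (∀ i, u i ∈ A) → (∀ i, v i ∈ A) → (∀ i, layer t (u i) = layer t (v i)) →
    layer t (f u) = layer t (f v)

/-- every compatible idempotent operation on `A` is a projection -/
def Rigid (k : ℕ) (A : Finset ((Fin d → ℤ) × (Fin d → ℤ))) : Prop :=
  ∀ (n : ℕ) (f : (Fin n → (Fin d → ℤ) × (Fin d → ℤ)) → (Fin d → ℤ) × (Fin d → ℤ)),
    Compatible k A n f → (∀ x ∈ A, f (fun _ => x) = x) → ∃ i, ∀ u, (∀ j, u j ∈ A) → f u = u i

/-- `A` cannot be divided in two nonempty parts `B`, `A \ B` with disjoint layers `t` for all `t < k`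
different from `t₀`. -/
def Irreducible (k : ℕ) (A : Finset ((Fin d → ℤ) × (Fin d → ℤ))) : Prop :=
  ∀ t₀ < k, ∀ B ⊆ A, B.Nonempty → (A \ B).Nonempty →
    ∃ t < k, t ≠ t₀ ∧ ¬ Disjoint (B.image (layer t)) ((A \ B).image (layer t))

/-- `A` has no irreducible and rigid subset with at least two elements. -/
def NoRigidPart (k : ℕ) (A : Finset ((Fin d → ℤ) × (Fin d → ℤ))) : Prop :=
  ∀ B ⊆ A, 2 ≤ #B → ¬ (Irreducible k B ∧ Rigid k B)

/-- For any two different elements `x`, `y` of `A` there is a compatible operation `f` with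
`f(x, …, x) = x`, `f(y, …, y) = y` which is not a projection on the tuples of elements `x`, `y`. -/
def Flexible (k : ℕ) (A : Finset ((Fin d → ℤ) × (Fin d → ℤ))) : Prop :=
  ∀ x ∈ A, ∀ y ∈ A, x ≠ y → ∃ (n : ℕ)
    (f : (Fin n → (Fin d → ℤ) × (Fin d → ℤ)) → (Fin d → ℤ) × (Fin d → ℤ)),
    Compatible k A n f ∧ f (fun _ => x) = x ∧ f (fun _ => y) = y ∧
    ∀ i, ∃ u : Fin n → (Fin d → ℤ) × (Fin d → ℤ), (∀ j, u j = x ∨ u j = y) ∧ f u ≠ u i

/-- `A` is closed under componentwise `n`-ary operations `μ t` on its layers, for some `n`, which are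
idempotent, and for each place `i` there are sets `Z ∋ i`, `W ∌ i` of places such that all these
operations satisfy the identity `μ(χ_Z(x, y)) = μ(χ_W(x, y))` for `x`, `y` in the layer, where
`χ_Z(x, y)` has the entries `y` at the places in `Z` and `x` at the other ones (a Taylor system of
identities). -/
def TaylorClosed (k : ℕ) (A : Finset ((Fin d → ℤ) × (Fin d → ℤ))) : Prop :=
  ∃ (n : ℕ) (μ : ℕ → (Fin n → Fin d → ℤ) → Fin d → ℤ),
    (∀ t < k, ∀ x ∈ A.image (layer t), μ t (fun _ => x) = x) ∧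
    (∀ i, ∃ Z W : Finset (Fin n), i ∈ Z ∧ i ∉ W ∧ ∀ t < k,
      ∀ x ∈ A.image (layer t), ∀ y ∈ A.image (layer t),
        μ t (fun j => if j ∈ Z then y else x) = μ t (fun j => if j ∈ W then y else x)) ∧
    ∀ u : Fin n → (Fin d → ℤ) × (Fin d → ℤ), (∀ j, u j ∈ A) → ∃ c ∈ A, ∀ t < k,
      layer t c = μ t (fun j => layer t (u j))

/-- the layers as homomorphisms -/
def hm (d k : ℕ) (t : Fin k) : (Fin d → ℤ) × (Fin d → ℤ) →+ (Fin d → ℤ) :=
  AddMonoidHom.mk' (layer t) (by
    intro a b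
    funext i
    simp [layer]
    ring)

theorem hm_apply (d k : ℕ) (t : Fin k) (z : (Fin d → ℤ) × (Fin d → ℤ)) :
    hm d k t z = layer t.1 z := rfl

theorem th_layer {k : ℕ} {A : Finset ((Fin d → ℤ) × (Fin d → ℤ))} (t : Fin k)
    (x y : {x // x ∈ A}) :
    Th (fun s => (hm d k s).ker) t x y ↔ layer t.1 x.1 = layer t.1 y.1 := by
  rw [th_iff', hm_apply, hm_apply]

theorem layer_inj {s t : ℕ} (hst : s ≠ t) {a b : (Fin d → ℤ) × (Fin d → ℤ)}
    (h1 : layer s a = layer s b) (h2 : layer t a = layer t b) : a = b := by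
  have hne : (s : ℤ) - t ≠ 0 := sub_ne_zero.2 (by exact_mod_cast hst)
  have e1 : ∀ i, a.1 i + s * a.2 i = b.1 i + s * b.2 i := fun i => by
    have := congrFun h1 i
    simpa [layer] using this
  have e2 : ∀ i, a.1 i + t * a.2 i = b.1 i + t * b.2 i := fun i => by
    have := congrFun h2 i
    simpa [layer] using this
  have e3 : ∀ i, a.2 i = b.2 i := fun i => by
    have h3 : ((s : ℤ) - t) * (a.2 i - b.2 i) = 0 := by linear_combination e1 i - e2 i
    exact sub_eq_zero.1 ((mul_eq_zero.1 h3).resolve_left hne)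
  refine Prod.ext (funext fun i => ?_) (funext e3)
  have := e1 i
  rw [e3 i] at this
  exact add_right_cancel this

theorem hm_inj (d k : ℕ) : ∀ i j : Fin k, i ≠ j → ∀ g, hm d k i g = 0 → hm d k j g = 0 → g = 0 := by
  intro i j hij g h1 h2
  rw [← map_zero (hm d k i)] at h1
  rw [← map_zero (hm d k j)] at h2
  exact layer_inj (fun h => hij (Fin.ext h)) h1 h2

/-- there is an additive embedding of `ℤ^d × ℤ^d` in the real numbers -/
theorem exists_lam (d : ℕ) : ∃ lam : (Fin d → ℤ) × (Fin d → ℤ) →+ ℝ, Function.Injective lam := by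
  have hrank : ((d + d : ℕ) : Cardinal) ≤ Module.rank ℚ ℝ := by
    rw [Real.rank_rat_real]
    exact (Cardinal.nat_lt_continuum _).le
  obtain ⟨v, hv⟩ := exists_linearIndependent_of_le_rank hrank
  have hw : LinearIndependent ℚ (v ∘ (finSumFinEquiv : Fin d ⊕ Fin d ≃ Fin (d + d))) :=
    hv.comp _ finSumFinEquiv.injective
  set w := v ∘ (finSumFinEquiv : Fin d ⊕ Fin d ≃ Fin (d + d)) with hwdef
  refine ⟨AddMonoidHom.mk' (fun z => ∑ i, (z.1 i : ℝ) * w (Sum.inl i) +
    ∑ i, (z.2 i : ℝ) * w (Sum.inr i)) ?_, ?_⟩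
  · intro a b
    simp only [Prod.fst_add, Prod.snd_add, Pi.add_apply, Int.cast_add, add_mul, sum_add_distrib]
    ring
  · rw [injective_iff_map_eq_zero]
    intro z hz
    have h1 : ∑ i, (z.1 i : ℝ) * w (Sum.inl i) + ∑ i, (z.2 i : ℝ) * w (Sum.inr i) = 0 := hz
    have h2 : ∑ s : Fin d ⊕ Fin d,
        (Sum.elim (fun i => (z.1 i : ℚ)) (fun i => (z.2 i : ℚ)) s) • w s = 0 := by
      rw [Fintype.sum_sum_type]
      simp only [Sum.elim_inl, Sum.elim_inr, Rat.smul_def, Rat.cast_intCast]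
      exact h1
    have h3 := Fintype.linearIndependent_iff.1 hw _ h2
    refine Prod.ext (funext fun i => ?_) (funext fun i => ?_)
    · have := h3 (Sum.inl i)
      simp only [Sum.elim_inl] at this
      exact_mod_cast this
    · have := h3 (Sum.inr i)
      simp only [Sum.elim_inr] at this
      exact_mod_cast this

/-- sets without rigid parts -/
theorem part_one (k : ℕ) (hk : 2 ≤ k) (A : Finset ((Fin d → ℤ) × (Fin d → ℤ)))
    (hA : NoRigidPart k A) : #A ^ (k - 1) ≤ ∏ t ∈ range k, #(A.image (layer t)) := by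
  classical
  obtain ⟨lam, hlam⟩ := exists_lam d
  have : Nontrivial (Fin k) := Fin.nontrivial_iff_two_le.2 hk
  have hprod : ∀ B : Finset ((Fin d → ℤ) × (Fin d → ℤ)),
      ∏ s : Fin k, (#(B.image (hm d k s)) : ℝ) = ∏ t ∈ range k, (#(B.image (layer t)) : ℝ) :=
    fun B => Fin.prod_univ_eq_prod_range (fun t => (#(B.image (layer t)) : ℝ)) k
  by_contra hcon
  push Not at hcon
  obtain ⟨B, hBA, hB2, -, hirr, hr⟩ := exists_rigid (hm d k) lam hlam (hm_inj d k)
    (κ := ((k - 1 : ℕ) : ℝ)) (by exact_mod_cast (by omega : 0 < k - 1))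
    (by
      rw [Fintype.card_fin, Nat.cast_sub (by omega : 1 ≤ k)]
      simp) A (by
      unfold Bnd
      rw [hprod, Real.rpow_natCast]
      refine not_le.2 ?_
      exact_mod_cast hcon)
  refine hA B hBA hB2 ⟨?_, ?_⟩
  · intro t₀ ht₀ C hC ⟨x, hx⟩ ⟨y, hy⟩
    obtain ⟨hyB, hyC⟩ := mem_sdiff.1 hy
    have hchain : Psi (fun s => (hm d k s).ker) ⟨t₀, ht₀⟩ (⟨x, hC hx⟩ : {x // x ∈ B}) ⟨y, hyB⟩ :=
      hirr _ _ _
    by_contra hcon'
    push Not at hcon'
    have hstep : ∀ z : {x // x ∈ B},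
        Relation.ReflTransGen (Step (fun s => (hm d k s).ker) ⟨t₀, ht₀⟩)
          (⟨x, hC hx⟩ : {x // x ∈ B}) z → z.1 ∈ C := by
      intro z hz
      induction hz with
      | refl => exact hx
      | tail _ hbc ih =>
        rename_i b c _
        obtain ⟨s, hs, hth⟩ := hbc
        by_contra hc
        have h1 := hcon' s.1 s.2 (fun h => hs (Fin.ext h))
        rw [disjoint_left] at h1
        refine h1 (mem_image_of_mem _ ih) ?_
        rw [th_iff'] at hth
        exact mem_image.2 ⟨c.1, mem_sdiff.2 ⟨c.2, hc⟩, hth.symm⟩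
    exact hyC (hstep ⟨y, hyB⟩ hchain)
  · intro n f hf hfi
    obtain ⟨i, hi⟩ := hr n (fun u => ⟨f fun j => (u j).1, hf.1 _ fun j => (u j).2⟩)
      (by
        intro s u v huv
        rw [th_iff']
        simp only [th_iff'] at huv
        exact hf.2 s.1 s.2 (fun j => (u j).1) (fun j => (v j).1) (fun j => (u j).2)
          (fun j => (v j).2) huv)
      (fun x => Subtype.ext (hfi x.1 x.2))
    exact ⟨i, fun u hu => congrArg Subtype.val (hi fun j => ⟨u j, hu j⟩)⟩

/-- the layers of the rounded graph consist of roundings of points of `N B` -/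
theorem layer_card {k : ℕ} {B : Set (EuclideanSpace ℝ (Fin d))}
    {a : EuclideanSpace ℝ (Fin d) → EuclideanSpace ℝ (Fin d)} (hB : Contains k B a) {N : ℕ}
    (hN : 1 ≤ N) {H : Finset ((Fin d → ℤ) × (Fin d → ℤ))} (hH : H ⊆ graph a N)
    {S : Finset (EuclideanSpace ℝ (Fin d))} (hS : B ⊆ ⋃ x ∈ S, Metric.ball x (1 / (N : ℝ)))
    {t : ℕ} (ht : t < k) : #(H.image (layer t)) ≤ 3 ^ d * #S := by
  classical
  have hNR : (0 : ℝ) < N := by exact_mod_cast hN
  let cell : EuclideanSpace ℝ (Fin d) → Finset (Fin d → ℤ) := fun x =>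
    Fintype.piFinset fun i => Finset.Icc (⌊(N : ℝ) * x i⌋ - 1) (⌊(N : ℝ) * x i⌋ + 1)
  have hcell : ∀ x, #(cell x) = 3 ^ d := by
    intro x
    simp only [cell, Fintype.card_piFinset, Int.card_Icc]
    rw [prod_congr rfl (g := fun _ => 3) fun i _ => by
      have : ⌊(N : ℝ) * x i⌋ + 1 + 1 - (⌊(N : ℝ) * x i⌋ - 1) = 3 := by ring
      rw [this]; rfl]
    simp
  have hsub : H.image (layer t) ⊆ S.biUnion cell := by
    intro y hy
    obtain ⟨z, hz, rfl⟩ := mem_image.1 hy
    obtain ⟨v, hv, rfl⟩ := mem_image.1 (hH hz)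
    have hv' : ∀ i, 0 ≤ v i ∧ v i < N := fun i => by
      have := Fintype.mem_piFinset.1 hv i
      exact Finset.mem_Ico.1 this
    have hmem := hB (pt N v) (fun i => by
      obtain ⟨h1, h2⟩ := hv' i
      have h1' : (0 : ℝ) ≤ v i := by exact_mod_cast h1
      have h2' : (v i : ℝ) ≤ N := by exact_mod_cast h2.le
      exact ⟨div_nonneg h1' hNR.le, (div_le_one hNR).2 h2'⟩) t ht
    obtain ⟨x, hx⟩ := Set.mem_iUnion.1 (hS hmem)
    obtain ⟨hxS, hx⟩ := Set.mem_iUnion.1 hx
    refine mem_biUnion.2 ⟨x, hxS, Fintype.mem_piFinset.2 fun i => ?_⟩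
    rw [Metric.mem_ball, EuclideanSpace.dist_eq] at hx
    have hi : |(a (pt N v) + (t : ℝ) • pt N v) i - x i| < 1 / N := by
      refine lt_of_le_of_lt ?_ hx
      rw [← Real.sqrt_sq_eq_abs]
      refine Real.sqrt_le_sqrt ?_
      have := Finset.single_le_sum (f := fun j =>
        dist ((a (pt N v) + (t : ℝ) • pt N v) j) (x j) ^ 2) (fun j _ => sq_nonneg _) (mem_univ i)
      rw [Real.dist_eq] at this
      rw [sq_abs] at this
      exact this
    have h3 : (a (pt N v) + (t : ℝ) • pt N v) i = a (pt N v) i + t * (v i / N) := by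
      simp [pt]
    rw [h3] at hi
    have h4 : (N : ℝ) * (a (pt N v) i + t * (v i / N)) = N * a (pt N v) i + t * v i := by
      field_simp
    have h5 : |(N : ℝ) * a (pt N v) i + t * v i - N * x i| < 1 := by
      have h6 : (N : ℝ) * a (pt N v) i + t * v i - N * x i =
          N * (a (pt N v) i + t * (v i / N) - x i) := by rw [mul_sub, h4]
      rw [h6, abs_mul, abs_of_pos hNR]
      rwa [lt_div_iff₀ hNR, mul_comm] at hi
    obtain ⟨h7, h8⟩ := abs_lt.1 h5
    have h9 : layer t ((fun i => ⌊(N : ℝ) * a (pt N v) i⌋), v) i =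
        ⌊(N : ℝ) * a (pt N v) i + t * v i⌋ := by
      have : (N : ℝ) * a (pt N v) i + t * v i =
          (N : ℝ) * a (pt N v) i + (((t : ℤ) * v i : ℤ) : ℝ) := by push_cast; ring
      rw [this, Int.floor_add_intCast]
      simp [layer]
    rw [h9, Finset.mem_Icc]
    constructor
    · rw [← Int.floor_sub_one]
      exact Int.floor_le_floor (by linarith)
    · rw [← Int.floor_add_one]
      exact Int.floor_le_floor (by linarith)
  refine (card_le_card hsub).trans (card_biUnion_le.trans ?_)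
  rw [sum_congr rfl fun x _ => hcell x, sum_const, smul_eq_mul, mul_comm]

/-- one scale -/
theorem part_two (k : ℕ) (hk : 2 ≤ k) (B : Set (EuclideanSpace ℝ (Fin d)))
    (a : EuclideanSpace ℝ (Fin d) → EuclideanSpace ℝ (Fin d)) (hB : Contains k B a) (N : ℕ)
    (hN : 1 ≤ N) (H : Finset ((Fin d → ℤ) × (Fin d → ℤ))) (hH : H ⊆ graph a N)
    (hr : NoRigidPart k H) (S : Finset (EuclideanSpace ℝ (Fin d)))
    (hS : B ⊆ ⋃ x ∈ S, Metric.ball x (1 / (N : ℝ))) :
    (#H : ℝ) ^ (1 - 1 / (k : ℝ)) ≤ 3 ^ d * #S := by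
  have h1 : #H ^ (k - 1) ≤ (3 ^ d * #S) ^ k := by
    refine (part_one k hk H hr).trans ?_
    have := prod_le_pow_card (range k) (fun t => #(H.image (layer t))) (3 ^ d * #S)
      (fun t ht => layer_card hB hN hH hS (mem_range.1 ht))
    rwa [card_range] at this
  have hk0 : (0 : ℝ) < k := by exact_mod_cast (by omega : 0 < k)
  refine le_of_pow_le_pow_left₀ (n := k) (by omega) (by positivity) ?_
  have h5 : ((#H : ℝ) ^ (1 - 1 / (k : ℝ))) ^ k = (#H : ℝ) ^ (k - 1) := by
    rw [← Real.rpow_natCast, ← Real.rpow_mul (by positivity), ← Real.rpow_natCast,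
      Nat.cast_sub (by omega : 1 ≤ k)]
    congr 1
    push_cast
    field_simp
  rw [h5]
  exact_mod_cast h1

/-- infinitely many scales -/
theorem part_three (ε : ℝ) (hε : 0 < ε) (k : ℕ) (hk : 2 ≤ k) (hkd : 2 * d / ε < k)
    (B : Set (EuclideanSpace ℝ (Fin d)))
    (a : EuclideanSpace ℝ (Fin d) → EuclideanSpace ℝ (Fin d)) (hB : Contains k B a)
    (hinf : ∀ N₀ : ℕ, ∃ N : ℕ, N₀ ≤ N ∧ ∃ H ⊆ graph a N, NoRigidPart k H ∧
      (N : ℝ) ^ ((d : ℝ) - ε / 2) ≤ #H) : DimAtLeast B (d - ε) := by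
  intro δ₀ hδ₀
  have hk0 : (0 : ℝ) < k := by exact_mod_cast (by omega : 0 < k)
  -- the gap of the exponents
  set g : ℝ := ((d : ℝ) - ε / 2) * (1 - 1 / (k : ℝ)) - (d - ε) with hg
  have hg0 : 0 < g := by
    have h1 : (d : ℝ) / k < ε / 2 := by
      rw [div_lt_iff₀ hε] at hkd
      rw [div_lt_iff₀ hk0]
      linarith
    have h2 : g = ε / 2 - d / k + ε / 2 * (1 / k) := by rw [hg]; ring
    have h3 : 0 < ε / 2 * (1 / (k : ℝ)) := by positivity
    rw [h2]
    linarith
  obtain ⟨N₁, hN₁⟩ := exists_nat_gt (((3 : ℝ) ^ d) ^ (1 / g))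
  obtain ⟨N₂, hN₂⟩ := exists_nat_gt (1 / δ₀)
  obtain ⟨N, hN, H, hH, hr, hcard⟩ := hinf (max (max N₁ N₂) 1)
  have hN1 : N₁ ≤ N := ((le_max_left _ _).trans (le_max_left _ _)).trans hN
  have hN2 : N₂ ≤ N := ((le_max_right _ _).trans (le_max_left _ _)).trans hN
  have hN3 : 1 ≤ N := (le_max_right _ _).trans hN
  have hNR : (0 : ℝ) < N := by exact_mod_cast hN3
  refine ⟨1 / N, by positivity, ?_, fun S hS => ?_⟩
  · rw [div_lt_comm₀ hNR hδ₀]
    exact hN₂.trans_le (by exact_mod_cast hN2)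
  · have h1 := part_two k hk B a hB N hN3 H hH hr S hS
    have hexp : 0 ≤ 1 - 1 / (k : ℝ) := by
      have : 1 / (k : ℝ) ≤ 1 := by
        rw [div_le_one hk0]
        exact_mod_cast (by omega : 1 ≤ k)
      linarith
    have h2 : (N : ℝ) ^ (((d : ℝ) - ε / 2) * (1 - 1 / (k : ℝ))) ≤ 3 ^ d * #S := by
      rw [Real.rpow_mul hNR.le]
      exact (Real.rpow_le_rpow (by positivity) hcard hexp).trans h1
    have h3 : (3 : ℝ) ^ d ≤ (N : ℝ) ^ g := by
      have h4 : ((3 : ℝ) ^ d) ^ (1 / g) ≤ N := hN₁.le.trans (by exact_mod_cast hN1)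
      have h5 := Real.rpow_le_rpow (by positivity) h4 hg0.le
      rwa [← Real.rpow_mul (by positivity), one_div, inv_mul_cancel₀ hg0.ne', Real.rpow_one] at h5
    have h6 : (N : ℝ) ^ (((d : ℝ) - ε / 2) * (1 - 1 / (k : ℝ))) =
        (N : ℝ) ^ ((d : ℝ) - ε) * (N : ℝ) ^ g := by
      rw [← Real.rpow_add hNR]
      congr 1
      rw [hg]
      ring
    rw [h6] at h2
    have h7 : (1 / (N : ℝ)) ^ (-((d : ℝ) - ε)) = (N : ℝ) ^ ((d : ℝ) - ε) := by
      rw [one_div, Real.inv_rpow hNR.le, Real.rpow_neg hNR.le, inv_inv]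
    rw [h7]
    have h8 : (0 : ℝ) < 3 ^ d := by positivity
    have h9 : (N : ℝ) ^ ((d : ℝ) - ε) * 3 ^ d ≤ 3 ^ d * #S :=
      (mul_le_mul_of_nonneg_left h3 (by positivity)).trans h2
    rw [mul_comm] at h9
    exact le_of_mul_le_mul_left h9 h8

theorem part_four (k : ℕ) (hk : 2 ≤ k) (A : Finset ((Fin d → ℤ) × (Fin d → ℤ)))
    (hA : Flexible k A) : NoRigidPart k A := by
  classical
  obtain ⟨lam, hlam⟩ := exists_lam d
  have : Nontrivial (Fin k) := Fin.nontrivial_iff_two_le.2 hk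
  rintro B hBA hB2 ⟨hirr, -⟩
  obtain ⟨x, hx, y, hy, hxy⟩ := one_lt_card.1 (by omega : 1 < #B)
  have hsep := separated (A := A) (K := fun s => (hm d k s).ker) lam hlam
    (fun i j hij g h1 h2 => hm_inj d k i j hij g ((AddMonoidHom.mem_ker).1 h1)
      ((AddMonoidHom.mem_ker).1 h2))
    (by
      intro a b hab
      obtain ⟨n, f, hf, hfa, hfb, hfn⟩ := hA a.1 a.2 b.1 b.2 (fun h => hab (Subtype.ext h))
      refine ⟨n, fun u => ⟨f fun j => (u j).1, hf.1 _ fun j => (u j).2⟩, ?_, Subtype.ext hfa,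
        Subtype.ext hfb, ?_⟩
      · intro s u v huv
        rw [th_iff']
        simp only [th_iff'] at huv
        exact hf.2 s.1 s.2 (fun j => (u j).1) (fun j => (v j).1) (fun j => (u j).2)
          (fun j => (v j).2) huv
      · intro i
        obtain ⟨u, hu, hui⟩ := hfn i
        have hmem : ∀ j, u j ∈ A := fun j => by
          rcases hu j with h | h
          · rw [h]; exact a.2
          · rw [h]; exact b.2
        refine ⟨fun j => ⟨u j, hmem j⟩, fun j => ?_, fun h => hui (congrArg Subtype.val h)⟩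
        rcases hu j with h | h
        · exact Or.inl (Subtype.ext h)
        · exact Or.inr (Subtype.ext h))
  refine hxy (congrArg Subtype.val (hsep ⟨x, hBA hx⟩ ⟨y, hBA hy⟩ fun s => ?_))
  let C : Finset ((Fin d → ℤ) × (Fin d → ℤ)) := B.filter fun z => ∃ h : z ∈ A,
    Psi (fun s => (hm d k s).ker) s (⟨x, hBA hx⟩ : {x // x ∈ A}) ⟨z, h⟩
  have hC : C ⊆ B := filter_subset _ _
  have hxC : x ∈ C := mem_filter.2 ⟨hx, hBA hx, psi_refl s _⟩
  by_contra hcon
  have hyC : y ∈ B \ C := mem_sdiff.2 ⟨hy, fun h => by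
    obtain ⟨-, h1, h2⟩ := mem_filter.1 h
    exact hcon h2⟩
  obtain ⟨t, ht, hts, hnd⟩ := hirr s.1 s.2 C hC ⟨x, hxC⟩ ⟨y, hyC⟩
  rw [not_disjoint_iff] at hnd
  obtain ⟨v, hv, hv'⟩ := hnd
  obtain ⟨z, hz, rfl⟩ := mem_image.1 hv
  obtain ⟨w, hw, hwz⟩ := mem_image.1 hv'
  obtain ⟨hzB, hzA, hz'⟩ := mem_filter.1 hz
  obtain ⟨hwB, hwC⟩ := mem_sdiff.1 hw
  refine hwC (mem_filter.2 ⟨hwB, hBA hwB, psi_trans hz' ?_⟩)
  have hth : Th (fun s => (hm d k s).ker) ⟨t, ht⟩ (⟨z, hzA⟩ : {x // x ∈ A}) ⟨w, hBA hwB⟩ :=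
    (th_layer ⟨t, ht⟩ ⟨z, hzA⟩ ⟨w, hBA hwB⟩).2 hwz.symm
  exact psi_of_th (fun h => hts (congrArg Fin.val h)) hth

theorem part_five (k : ℕ) (hk : 2 ≤ k) (A : Finset ((Fin d → ℤ) × (Fin d → ℤ)))
    (hA : TaylorClosed k A) : Flexible k A := by
  classical
  obtain ⟨n, μ, hμ, hid, hcl⟩ := hA
  have huniq : ∀ c e : (Fin d → ℤ) × (Fin d → ℤ), (∀ t < k, layer t c = layer t e) → c = e :=
    fun c e h => layer_inj (s := 0) (t := 1) (by norm_num) (h _ (by omega)) (h _ (by omega))
  have hch : ∀ u : Fin n → (Fin d → ℤ) × (Fin d → ℤ), ∃ c : (Fin d → ℤ) × (Fin d → ℤ),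
      (∀ j, u j ∈ A) → c ∈ A ∧ ∀ t < k, layer t c = μ t (fun j => layer t (u j)) := by
    intro u
    by_cases h : ∀ j, u j ∈ A
    · obtain ⟨c, hc⟩ := hcl u h
      exact ⟨c, fun _ => hc⟩
    · exact ⟨0, fun h' => absurd h' h⟩
  choose f hf using hch
  have hconst : ∀ c ∈ A, f (fun _ => c) = c := by
    intro c hc
    refine huniq _ _ fun t ht => ?_
    rw [(hf (fun _ => c) fun _ => hc).2 t ht, hμ t ht _ (mem_image_of_mem _ hc)]
  intro a ha b hb hab
  refine ⟨n, f, ⟨fun u hu => (hf u hu).1, ?_⟩, hconst a ha, hconst b hb, ?_⟩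
  · intro t ht u v hu hv huv
    rw [(hf u hu).2 t ht, (hf v hv).2 t ht]
    congr 1
    funext j
    exact huv j
  · intro i
    obtain ⟨Z, W, hZ, hW, h1⟩ := hid i
    have hmem : ∀ T : Finset (Fin n), ∀ j, (if j ∈ T then b else a) ∈ A := by
      intro T j
      split_ifs
      · exact hb
      · exact ha
    have heq : f (fun j => if j ∈ Z then b else a) = f (fun j => if j ∈ W then b else a) := by
      have q : ∀ (g : (Fin d → ℤ) × (Fin d → ℤ) → (Fin d → ℤ)) (T : Finset (Fin n)),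
          (fun j => g (if j ∈ T then b else a)) = fun j => if j ∈ T then g b else g a := by
        intro g T
        funext j
        split_ifs <;> rfl
      refine huniq _ _ fun t ht => ?_
      rw [(hf _ (hmem Z)).2 t ht, (hf _ (hmem W)).2 t ht, q (layer t) Z, q (layer t) W]
      exact h1 t ht _ (mem_image_of_mem _ ha) _ (mem_image_of_mem _ hb)
    have hab' : ∀ (T : Finset (Fin n)) (j : Fin n),
        (if j ∈ T then b else a) = a ∨ (if j ∈ T then b else a) = b := by
      intro T j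
      by_cases hj : j ∈ T
      · rw [if_pos hj]; exact Or.inr rfl
      · rw [if_neg hj]; exact Or.inl rfl
    by_cases h : f (fun j => if j ∈ Z then b else a) = b
    · refine ⟨fun j => if j ∈ W then b else a, hab' W, fun h' => hab ?_⟩
      have h3 : f (fun j => if j ∈ W then b else a) = if i ∈ W then b else a := h'
      rw [← heq, h, if_neg hW] at h3
      exact h3.symm
    · refine ⟨fun j => if j ∈ Z then b else a, hab' Z, fun h' => h ?_⟩
      have h3 : f (fun j => if j ∈ Z then b else a) = if i ∈ Z then b else a := h'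
      rw [h3, if_pos hZ]

/-- **Theorem.** (1) `|A|^{k-1} ≤ ∏_{t < k} |layer t A|` for all `A ⊂ ℤ^d × ℤ^d` without rigid parts.
(2) If `B ⊆ ℝ^d` contains the progressions given by `a` and the rounded graph of `a` at scale `1/N`
contains a set `H` without rigid parts, then every cover of `B` by balls of radius `1/N` has at least
`3^{-d} |H|^{1-1/k}` members. (3) If this happens with `|H| ≥ N^{d-ε/2}` for arbitrarily large `N`, and
`k > 2d/ε`, then `B` has upper Minkowski dimension at least `d - ε`. (4) Flexible sets have no rigid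
parts. (5) Sets which are closed under componentwise idempotent operations with a Taylor system of
identities are flexible. -/
theorem result :
    (∀ (d k : ℕ), 2 ≤ k → ∀ A : Finset ((Fin d → ℤ) × (Fin d → ℤ)), NoRigidPart k A →
      #A ^ (k - 1) ≤ ∏ t ∈ range k, #(A.image (layer t))) ∧
    (∀ (d k : ℕ), 2 ≤ k → ∀ (B : Set (EuclideanSpace ℝ (Fin d)))
      (a : EuclideanSpace ℝ (Fin d) → EuclideanSpace ℝ (Fin d)), Contains k B a →
      ∀ N : ℕ, 1 ≤ N → ∀ H ⊆ graph a N, NoRigidPart k H →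
      ∀ S : Finset (EuclideanSpace ℝ (Fin d)), B ⊆ (⋃ x ∈ S, Metric.ball x (1 / (N : ℝ))) →
        (#H : ℝ) ^ (1 - 1 / (k : ℝ)) ≤ 3 ^ d * #S) ∧
    (∀ (d : ℕ) (ε : ℝ), 0 < ε → ∀ k : ℕ, 2 ≤ k → 2 * (d : ℝ) / ε < k →
      ∀ (B : Set (EuclideanSpace ℝ (Fin d)))
      (a : EuclideanSpace ℝ (Fin d) → EuclideanSpace ℝ (Fin d)), Contains k B a →
      (∀ N₀ : ℕ, ∃ N : ℕ, N₀ ≤ N ∧ ∃ H ⊆ graph a N, NoRigidPart k H ∧
        (N : ℝ) ^ ((d : ℝ) - ε / 2) ≤ #H) → DimAtLeast B (d - ε)) ∧
    (∀ (d k : ℕ), 2 ≤ k → ∀ A : Finset ((Fin d → ℤ) × (Fin d → ℤ)), Flexible k A →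
      NoRigidPart k A) ∧
    (∀ (d k : ℕ), 2 ≤ k → ∀ A : Finset ((Fin d → ℤ) × (Fin d → ℤ)), TaylorClosed k A →
      Flexible k A) :=
  ⟨fun _ k hk A hA => part_one k hk A hA,
    fun _ k hk B a hB N hN H hH hr S hS => part_two k hk B a hB N hN H hH hr S hS,
    fun _ ε hε k hk hkd B a hB hinf => part_three ε hε k hk hkd B a hB hinf,
    fun _ k hk A hA => part_four k hk A hA, fun _ k hk A hA => part_five k hk A hA⟩

end Pool.Agent.Results.MP_4b405e_nt.NoRigidParts
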