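import Mathlib
import Pool.Agent.Zk23.KKFin

set_option autoImplicit false

/-!
# MP_4b405e_nt: the arithmetic Kakeya problem for sets covered by countably many smooth pieces

A set `B ⊆ ℝ^n` is called `d`-smooth if it is covered by countably many sets which consist of values
of rank at most `d` of `C^∞` maps `ℝ^m → ℝ^n` (`m` arbitrary), for instance by countably many smooth
submanifolds of dimension `d`.

If all terms but one of the progressions `a, a + r, …` (more generally of the points `a + t r`, `t` in a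
finite set of real numbers) lie in smooth sets `B_t` of dimensions `d_t` and the remaining one in an
arbitrary set `Z`, for a set of positive outer measure of common differences `r`, then
`∑ (n - d_t) ≤ min(n, dim Z)`, which is sharp. No regularity of the choice `r ↦ a(r)` is assumed; the
starting file `HoelderProgressions` has arbitrary sets, but families `a(r)` of class `C^α`,
`α > 1 - 1/n`, and `AlgebraicSets` has semialgebraic sets.

Hence the least dimension (Hausdorff, upper Minkowski) of a countable union of smooth images that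
contains a `k`-term progression with every common difference in `[0,1]^n` is `n - ⌊n/k⌋`, also if an
exceptional set of packing dimension less than `n/2` is allowed; and removing from an arbitrary set
countably many smooth hypersurfaces does not destroy its progressions (van der Waerden).

Proof. For smooth maps `π : N → Q`, `ρ : N → F`, a set `Z ⊆ Q` and `w ∈ ℕ`, the values `ρ(x)` at the
points `x ∈ π⁻¹(Z)` where `Dρ(ker Dπ)` has dimension at most `w` form a set of dimension at most
`dim Z + w` (a Sard theorem with a fractal constraint; the case of one point `Z` is due to Federer).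
At a point of the family `{(a, r, x) : f_t(x_t) = a + t r}` let `L` be the set of the `β` for which there
is `α` with `α + t β ∈ V_t = im Df_t` for all `t`, and `W = ⋂ V_t`. Then `β ↦ α` induces a linear map
`D : L/W → ℝ^n/W` with `rank (D + t) ≤ dim V_t - dim W`, so that the eigenspaces of `D` for the
eigenvalues `-t` give `dim W + ∑ (dim L - d_t)⁺ ≤ dim L`.
-/

open Set Filter Topology MeasureTheory Module
open scoped ContDiff ENNReal

namespace Pool.Agent.Results.MP_4b405e_nt.SmoothCovers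

/-- `ℝ^n` with its Euclidean norm. -/
abbrev E (n : ℕ) := EuclideanSpace ℝ (Fin n)

/-- `B` is `d`-smooth: it is covered by countably many sets, each of which consists of values, at
points where the derivative has rank at most `d`, of a `C^∞` map from some `ℝ^m` to `ℝ^n`. -/
def SmoothDim {n : ℕ} (d : ℕ) (B : Set (E n)) : Prop :=
  ∃ (m : ℕ → ℕ) (f : ∀ i, E (m i) → E n), (∀ i, ContDiff ℝ ∞ (f i)) ∧
    B ⊆ ⋃ i, f i '' {x | finrank ℝ (LinearMap.range (fderiv ℝ (f i) x : E (m i) →ₗ[ℝ] E n)) ≤ d}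

/-- The vectors `r` such that for some `a` the point `a + t₀ r` lies in `Z` and the points `a + t r`,
`t ∈ T`, lie in `B t`. -/
def Differences {n : ℕ} (T : Finset ℝ) (B : ℝ → Set (E n)) (t₀ : ℝ) (Z : Set (E n)) : Set (E n) :=
  {r | ∃ a : E n, a + t₀ • r ∈ Z ∧ ∀ t ∈ T, a + t • r ∈ B t}

/-- The common differences of the `k`-term progressions in `B`. -/
def progDiff {n : ℕ} (k : ℕ) (B : Set (E n)) : Set (E n) :=
  {r | ∃ a : E n, ∀ j : ℕ, j < k → a + (j : ℝ) • r ∈ B}

/-- The cube `[0,1]^n`. -/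
def cube (n : ℕ) : Set (E n) := {r | ∀ i, r i ∈ Icc (0 : ℝ) 1}

/-- The least number of sets of diameter at most `δ` covering `B` (for bounded `B`). -/
noncomputable def coverNum {n : ℕ} (B : Set (E n)) (δ : ℝ) : ℕ :=
  sInf {N | ∃ U : Fin N → Set (E n), (∀ i, ∀ x ∈ U i, ∀ y ∈ U i, dist x y ≤ δ) ∧ B ⊆ ⋃ i, U i}

/-- Upper Minkowski dimension (upper box-counting dimension). -/
noncomputable def upperMinkowski {n : ℕ} (B : Set (E n)) : EReal :=
  limsup (fun δ : ℝ => ((Real.log (coverNum B δ) / Real.log (1 / δ) : ℝ) : EReal)) (𝓝[>] 0)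

/-- The packing dimension of `X` is less than `s`: for some `s' < s`, `X` is covered by countably many
bounded sets of upper Minkowski dimension at most `s'`. -/
def PackingLT {n : ℕ} (X : Set (E n)) (s : ℝ) : Prop :=
  ∃ s' : ℝ, 0 ≤ s' ∧ s' < s ∧ ∃ Y : ℕ → Set (E n), X ⊆ ⋃ i, Y i ∧
    ∀ i, Bornology.IsBounded (Y i) ∧ upperMinkowski (Y i) ≤ (s' : EReal)

/-- `B` is the union of countably many images of `C^∞` maps `ℝ^m → ℝ^n` (with arbitrary `m`) and of a
set of packing dimension less than `n/2`. -/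
def Admissible {n : ℕ} (B : Set (E n)) : Prop :=
  ∃ (m : ℕ → ℕ) (f : ∀ i, E (m i) → E n) (X : Set (E n)), (∀ i, ContDiff ℝ ∞ (f i)) ∧
    PackingLT X ((n : ℝ) / 2) ∧ B = (⋃ i, range (f i)) ∪ X

theorem result :
    -- (1) all points but one in smooth sets: the dimension of the set of differences
    (∀ (n : ℕ) (T : Finset ℝ) (d : ℝ → ℕ) (B : ℝ → Set (E n)), (∀ t ∈ T, SmoothDim (d t) (B t)) →
      ∀ t₀ : ℝ, t₀ ∉ T → ∀ Z : Set (E n),
      (∃ l ≤ n, ∑ t ∈ T, (l - d t) ≤ l ∧ dimH (Differences T B t₀ Z) ≤ l ∧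
        dimH (Differences T B t₀ Z) + ((∑ t ∈ T, (l - d t) : ℕ) : ℝ≥0∞) ≤ dimH Z + l) ∧
      -- differences of positive outer measure
      (volume (Differences T B t₀ Z) ≠ 0 →
        ∑ t ∈ T, (n - d t) ≤ n ∧ ((∑ t ∈ T, (n - d t) : ℕ) : ℝ≥0∞) ≤ dimH Z)) ∧
    -- (2) this is sharp
    (∀ (n : ℕ) (T : Finset ℝ) (d : ℝ → ℕ), (∀ t ∈ T, d t ≤ n) → ∑ t ∈ T, (n - d t) ≤ n →
      ∀ t₀ : ℝ, t₀ ∉ T → ∃ (V : ℝ → Submodule ℝ (E n)) (Z : Submodule ℝ (E n)),
        (∀ t ∈ T, finrank ℝ (V t) = d t) ∧ finrank ℝ Z = ∑ t ∈ T, (n - d t) ∧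
        Differences T (fun t => (V t : Set (E n))) t₀ (Z : Set (E n)) = univ) ∧
    -- (3) the exact least dimensions of countable unions of smooth images
    (∀ n k : ℕ, 1 ≤ n → 1 ≤ k →
      (∀ B : Set (E n), Admissible B → volume (progDiff k B) ≠ 0 →
        ((n - n / k : ℕ) : ℝ≥0∞) ≤ dimH B) ∧
      IsLeast {D : EReal | ∃ B : Set (E n), Bornology.IsBounded B ∧ Admissible B ∧
        cube n ⊆ progDiff k B ∧ upperMinkowski B = D} (((n - n / k : ℕ) : ℝ) : EReal) ∧
      IsLeast {D : ℝ≥0∞ | ∃ B : Set (E n), Bornology.IsBounded B ∧ Admissible B ∧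
        cube n ⊆ progDiff k B ∧ dimH B = D} ((n - n / k : ℕ) : ℝ≥0∞)) ∧
    -- (4) removing smooth hypersurfaces from an arbitrary set
    (∀ n k₀ : ℕ, 1 ≤ n → ∃ k : ℕ, ∀ B S : Set (E n), SmoothDim (n - 1) S →
      volume (progDiff k B) ≠ 0 → volume (progDiff k₀ (B \ S)) ≠ 0) := by
  refine ⟨?_, ?_, ?_, ?_⟩
  · intro n T d B hB t₀ ht₀ Z
    exact ⟨Pool.Agent.Zk23.KKMain.layers n T d B hB t₀ ht₀ Z,
      fun hv => Pool.Agent.Zk23.KKCor.one_layer n T d B hB t₀ ht₀ Z hv⟩
  · intro n T d hd hs t₀ ht₀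
    obtain ⟨V, Z, h1, h2, h3⟩ := Pool.Agent.Zk72.KakEx.kakeya_example n T t₀ ht₀ d hd hs
    exact ⟨V, Z, h1, h2, eq_univ_of_forall fun r => h3 r⟩
  · intro n k hn hk
    exact ⟨fun B hB hv => Pool.Agent.Zk23.KKFin.lower hk hB hv,
      Pool.Agent.Zk23.KKFin.least n k hn hk⟩
  · intro n k₀ hn
    exact Pool.Agent.Zk23.KKCor.removal n k₀ hn

end Pool.Agent.Results.MP_4b405e_nt.SmoothCovers
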