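import Mathlib
import Pool.Agent.Zk23.KKDigit
import Pool.Agent.Zk23.KKSq2

set_option autoImplicit false

/-!
# MP_4b405e_nt: the arithmetic Kakeya conjecture is a statement on graphs of `C^s` functions

The exponent `f^M_n(k)` is the threshold for the dimension `d` of the `C^1` images of `ℝ^d` in `ℝ^n`
which contain `k`-term progressions with many (equivalently: with all) differences. If
`f^M_n(k)/n < d/(d + s m)` for some `n`, there are `C^s` maps `ℝ^d → ℝ^m` whose graphs contain `k`-term
progressions with nearly all differences. Hence for every fixed `s ≥ 1` the conjecture Q1 is equivalent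
to its version for graphs of `C^s` functions on `ℝ^d` (all `d`, null sets of differences), for countable
unions of `C^s` images of `ℝ^(n-1)` in `ℝ^n`, and for `C^s` images of cubes; and if Q1 fails, the
version for `C^s` functions on `ℝ^d` fails for all `s ≤ c d`, for a constant `c > 0`. By our hand-in
`FiniteSmoothness` it holds for `s ≥ d`. Unconditionally there are such maps `ℝ^d → ℝ^m` for every
`k ≥ 3` if `s m ≤ c d / (log log k + 1)` (digits which are squares modulo a product of primes); so in
the version for graphs the length `k` must be at least `exp (exp (c' d))`.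

Proof. Let `A` be a set of integers, `|A| ≤ q^t`, containing `k`-term progressions with all differences
below the prime `q`. In the power `A^(d + s m)` modulo `q` one changes the coordinates linearly, at
random: if `t (d + s m) < d`, then for all but a small proportion (a negative power of `q`) of the
differences the terms of the progression are separated from all other points of the set in the first
`d` coordinates; the other `s m` coordinates are the digits of the values. The map `g` is a sum over
all levels `J` and all words of smooth bumps; the bases `b_J` grow like a power of `J`, so that the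
proportions of the exceptional digits have a small sum, and the values have the bases `(2 b_J)^s`, so
that `g` is of class `C^s`. Conversely, if the differences in a countable union of `C^1` images of
`ℝ^d` have positive outer measure, a compact part has the same property, and at scale `1/N` a union of
`O(log N)` translates of a discretisation contains progressions with all differences in `{0,…,N-1}^n`.
-/

open Set Filter Topology MeasureTheory
open scoped ContDiff

namespace Pool.Agent.Results.MP_4b405e_nt.SmoothGraphs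

/-- `ℝ^n` with its Euclidean norm. -/
abbrev E (n : ℕ) := EuclideanSpace ℝ (Fin n)

/-- `B` contains a `k`-term progression with every common difference in `[0,1]^n`. -/
def HasProgressions {n : ℕ} (k : ℕ) (B : Set (E n)) : Prop :=
  ∀ r : E n, (∀ i, r i ∈ Icc (0 : ℝ) 1) → ∃ a : E n, ∀ j : ℕ, j < k → a + (j : ℝ) • r ∈ B

/-- The common differences of the `k`-term progressions in `B`. -/
def differences {n : ℕ} (k : ℕ) (B : Set (E n)) : Set (E n) :=
  {r | ∃ a : E n, ∀ j : ℕ, j < k → a + (j : ℝ) • r ∈ B}

/-- The unit cube `[0,1]^n`. -/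
def cube (n : ℕ) : Set (E n) := {z | ∀ i, z i ∈ Icc (0 : ℝ) 1}

/-- The graph `{(x, g x)}` of `g : ℝ^d → ℝ^m`, a subset of `ℝ^(d+m)`. -/
def graph {d m : ℕ} (g : E d → E m) : Set (E (d + m)) :=
  {w | ∀ j : Fin m, w (Fin.natAdd d j) = g (WithLp.toLp 2 fun i => w (Fin.castAdd m i)) j}

/-- The least number of sets of diameter at most `δ` covering `B` (for bounded `B`). -/
noncomputable def coverNum {n : ℕ} (B : Set (E n)) (δ : ℝ) : ℕ :=
  sInf {N | ∃ U : Fin N → Set (E n), (∀ i, ∀ x ∈ U i, ∀ y ∈ U i, dist x y ≤ δ) ∧ B ⊆ ⋃ i, U i}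

/-- Upper Minkowski dimension (upper box-counting dimension). -/
noncomputable def upperMinkowski {n : ℕ} (B : Set (E n)) : EReal :=
  limsup (fun δ : ℝ => ((Real.log (coverNum B δ) / Real.log (1 / δ) : ℝ) : EReal)) (𝓝[>] 0)

/-- `f^M_n(k)`. -/
noncomputable def fM (n k : ℕ) : EReal :=
  ⨅ (B : Set (E n)) (_ : Bornology.IsBounded B) (_ : HasProgressions k B), upperMinkowski B

/-- The image of `[0,1]^d` under some `C^s` map `ℝ^d → ℝ^n` contains a `k`-term progression with every
common difference in `[0,1]^n`. -/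
def CImage (s k n d : ℕ) : Prop :=
  ∃ g : E d → E n, ContDiff ℝ s g ∧ HasProgressions k (g '' cube d)

/-- The arithmetic Kakeya conjecture Q1, in the words of the frozen statement `S16849`. -/
def Q1 : Prop := ∀ n : ℕ, ∀ ε : ℝ, 0 < ε → ∃ k : ℕ, ∀ B : Set (E n), HasProgressions k B →
  ∀ δ₀ : ℝ, 0 < δ₀ → ∃ δ : ℝ, 0 < δ ∧ δ < δ₀ ∧ ∀ S : Finset (E n),
    B ⊆ (⋃ x ∈ S, Metric.ball x δ) → δ ^ (-((n : ℝ) - ε)) ≤ (S.card : ℝ)

theorem result :
    -- (1) `C^1` images: the exponent is the threshold for the dimension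
    (∀ n d k : ℕ, 1 ≤ n → 1 ≤ k →
      (fM n k < ((d : ℝ) : EReal) → CImage 1 k n d) ∧
      (∀ f : ℕ → E d → E n, (∀ i, ContDiff ℝ 1 (f i)) →
        volume (differences k (⋃ i, range (f i))) ≠ 0 → fM n k ≤ ((d : ℝ) : EReal))) ∧
    -- (2) graphs of `C^s` maps `ℝ^d → ℝ^m`
    (∀ s d m k n : ℕ, 1 ≤ s → 1 ≤ d → 1 ≤ k → 1 ≤ n →
      fM n k < ((n * d / (d + s * m) : ℝ) : EReal) → ∀ ε : ℝ, 0 < ε →
        ∃ g : E d → E m, ContDiff ℝ s g ∧
          ENNReal.ofReal (1 - ε) ≤ volume (cube (d + m) ∩ differences k (graph g))) ∧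
    -- (3) if Q1 fails
    (¬ Q1 → ∃ c : ℝ, 0 < c ∧ ∀ s d : ℕ, 1 ≤ s → 1 ≤ d → (s : ℝ) ≤ c * d →
      ∀ (k : ℕ) (ε : ℝ), 0 < ε → ∃ g : E d → E 1, ContDiff ℝ s g ∧
        ENNReal.ofReal (1 - ε) ≤ volume (cube (d + 1) ∩ differences k (graph g))) ∧
    -- (4) the equivalences, for every fixed `s`
    (∀ s : ℕ, 1 ≤ s → List.TFAE
      [Q1,
       ∀ d : ℕ, ∃ k : ℕ, ∀ g : E d → E 1, ContDiff ℝ s g → volume (differences k (graph g)) = 0,
       ∀ n : ℕ, 1 ≤ n → ∃ k : ℕ, ∀ f : ℕ → E (n - 1) → E n, (∀ i, ContDiff ℝ s (f i)) →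
         volume (differences k (⋃ i, range (f i))) = 0,
       ∀ n : ℕ, 1 ≤ n → ∃ k : ℕ, ¬ CImage s k n (n - 1)]) ∧
    -- (5) for every length there are such graphs
    (∃ c : ℝ, 0 < c ∧ ∀ s d m k : ℕ, 1 ≤ s → 1 ≤ d → 3 ≤ k →
      (s : ℝ) * m ≤ c * d / (Real.log (Real.log k) + 1) →
      ∀ ε : ℝ, 0 < ε → ∃ g : E d → E m, ContDiff ℝ s g ∧
        ENNReal.ofReal (1 - ε) ≤ volume (cube (d + m) ∩ differences k (graph g))) := by
  refine ⟨fun n d k hn hk => ⟨fun h => ?_, fun f hf hv =>
      Pool.Agent.Zk23.KKExact.fM_le_of_union n d k hn hk f hf hv⟩,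
    fun s d m k n hs hd hk hn h ε hε =>
      Pool.Agent.Zk23.KKExact.graph_of_fM s d m k n hs hd hk hn h ε hε,
    fun h => Pool.Agent.Zk23.KKExact.fail h,
    fun s hs => Pool.Agent.Zk23.KKFinal.equivalences s hs,
    Pool.Agent.Zk23.KKSq2.graphs⟩
  simp only [CImage, Nat.cast_one]
  exact Pool.Agent.Zk23.KKExact.c1_exact hn hk h

end Pool.Agent.Results.MP_4b405e_nt.SmoothGraphs
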